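import Mathlib
import Pool.Agent.Y644.Arr.Core

/-!
# MP_65e89e_gt: a first countable compact Hausdorff space which is not set-self-Tietze
-/

set_option autoImplicit false

open Set Topology Filter TopologicalSpace
open Pool.Agent.H151 Pool.Agent.H151.Ext Pool.Agent.Y644.Arr

universe u v

namespace Pool.Agent.Results.MP_65e89e_gt.FirstCountableFails

/-- upper semi-continuity of a set-valued map -/
def USC {Y : Type u} {X : Type v} [TopologicalSpace Y] [TopologicalSpace X] (F : Y → Set X) : Prop :=
  ∀ U : Set X, IsOpen U → IsOpen {y : Y | F y ⊆ U}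

/-- `F` takes its values in `2^X`, the family of nonempty closed subsets of `X` -/
def ClosedValued {Y : Type u} {X : Type v} [TopologicalSpace X] (F : Y → Set X) : Prop :=
  ∀ y, (F y).Nonempty ∧ IsClosed (F y)

/-- set-self-Tietze spaces -/
def SetSelfTietze (X : Type u) [TopologicalSpace X] : Prop :=
  ∀ A : Set X, IsClosed A → ∀ f : A → Set X, ClosedValued f → USC f →
    ∃ F : X → Set X, ClosedValued F ∧ USC F ∧ ∀ a : A, F a = f a

/-- If `L` is a separable Hausdorff space with a nonseparable closed subspace `K`, then the topological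
sum `L ⊕ K` is not set-self-Tietze. -/
theorem not_setSelfTietze_sum {L : Type u} [TopologicalSpace L] [T2Space L] [SeparableSpace L] {K : Set L}
    (hK : IsClosed K) (hns : ¬ SeparableSpace K) : ¬ SetSelfTietze (L ⊕ K) := by
  intro h
  let A : Set (L ⊕ K) := Sum.inl '' K
  have hA : IsClosed A := Topology.IsClosedEmbedding.inl.isClosedMap K hK
  let r : L ⊕ K → L := Sum.elim id Subtype.val
  have hr : Continuous r := continuous_id.sumElim continuous_subtype_val
  have hrA : ∀ a : A, r a.1 ∈ K := by
    rintro ⟨_, x, hx, rfl⟩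
    exact hx
  let g : A → L ⊕ K := fun a => Sum.inr ⟨r a.1, hrA a⟩
  have hg : Continuous g := continuous_inr.comp ((hr.comp continuous_subtype_val).subtype_mk _)
  obtain ⟨F, hF1, hF, hFf⟩ := h A hA (fun a => {g a}) (fun a => ⟨⟨_, rfl⟩, isClosed_singleton⟩) (by
    intro U hU
    have : {a : A | ({g a} : Set (L ⊕ K)) ⊆ U} = g ⁻¹' U := by
      ext a; simp
    rw [this]
    exact hU.preimage hg)
  have hFK : ∀ x : K, F (Sum.inl x.1) = {Sum.inr x} := fun x => hFf ⟨Sum.inl x.1, x.1, x.2, rfl⟩
  obtain ⟨D, hDc, hD⟩ := TopologicalSpace.exists_countable_dense L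
  choose p hp using fun x => (hF1 x).1
  let U₀ : Set L := {x | F (Sum.inl x) ⊆ range Sum.inr}
  have hU₀ : IsOpen U₀ := (hF _ isOpen_range_inr).preimage continuous_inl
  have hKU₀ : K ⊆ U₀ := by
    intro x hx
    change F (Sum.inl x) ⊆ range Sum.inr
    rw [hFK ⟨x, hx⟩]
    rintro _ rfl
    exact ⟨_, rfl⟩
  let S : Set K := {k | ∃ d ∈ D, d ∈ U₀ ∧ p (Sum.inl d) = Sum.inr k}
  have hSc : S.Countable := by
    have h1 : (Sum.inr '' S : Set (L ⊕ K)) ⊆ (fun d => p (Sum.inl d)) '' D := by
      rintro _ ⟨k, ⟨d, hd, -, hk⟩, rfl⟩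
      exact ⟨d, hd, hk⟩
    exact Set.countable_of_injective_of_countable_image Sum.inr_injective.injOn ((hDc.image _).mono h1)
  have hSnd : ¬ Dense S := fun hS => hns ⟨S, hSc, hS⟩
  obtain ⟨x, hx⟩ : ∃ x : K, x ∉ closure S := by
    by_contra hcon
    push Not at hcon
    exact hSnd hcon
  let C : Set (L ⊕ K) := Sum.inr '' closure S
  have hC : IsClosed C := Topology.IsClosedEmbedding.inr.isClosedMap _ isClosed_closure
  let W : Set L := {y | F (Sum.inl y) ⊆ Cᶜ}
  have hW : IsOpen W := (hF _ hC.isOpen_compl).preimage continuous_inl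
  have hxW : x.1 ∈ W := by
    change F (Sum.inl x.1) ⊆ Cᶜ
    rw [hFK x]
    rintro _ rfl ⟨k, hk, hkx⟩
    rw [Sum.inr_injective hkx] at hk
    exact hx hk
  obtain ⟨d, ⟨hdW, hdU⟩, hdD⟩ := hD.inter_open_nonempty (W ∩ U₀) (hW.inter hU₀) ⟨x.1, hxW, hKU₀ x.2⟩
  obtain ⟨k, hk⟩ := hdU (hp (Sum.inl d))
  exact hdW (hp (Sum.inl d)) ⟨k, subset_closure ⟨d, hdD, hdU, hk.symm⟩, hk⟩

/-- the points of the square of the double arrow space which lie over the antidiagonal -/
def K : Set (DA × DA) :=
  {p | ∀ x y : ℝ, (0 < x + y → p.1.1 x = false ∨ p.2.1 y = false) ∧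
    (x + y < 0 → p.1.1 x = true ∨ p.2.1 y = true)}

theorem isClosed_K : IsClosed K := by
  have h1 : ∀ (x : ℝ) (b : Bool), IsClosed {p : DA × DA | p.1.1 x = b} := fun x b =>
    (isClosed_discrete ({b} : Set Bool)).preimage ((DA.cont_eval x).comp continuous_fst)
  have h2 : ∀ (x : ℝ) (b : Bool), IsClosed {p : DA × DA | p.2.1 x = b} := fun x b =>
    (isClosed_discrete ({b} : Set Bool)).preimage ((DA.cont_eval x).comp continuous_snd)
  have : K = ⋂ (x : ℝ) (y : ℝ), ((⋂ (_ : 0 < x + y), ({p : DA × DA | p.1.1 x = false} ∪ {p | p.2.1 y = false})) ∩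
      (⋂ (_ : x + y < 0), ({p : DA × DA | p.1.1 x = true} ∪ {p | p.2.1 y = true}))) := by
    ext p
    simp only [K, mem_iInter, mem_inter_iff, mem_union, mem_ofPred_eq]
  rw [this]
  exact isClosed_iInter fun x => isClosed_iInter fun y =>
    (isClosed_iInter fun _ => (h1 x _).union (h2 y _)).inter (isClosed_iInter fun _ => (h1 x _).union (h2 y _))

/-- isolated points of `K` -/
noncomputable def pt (s : ℝ) : K := ⟨(Hi s, Hi (-s)), by
  intro x y
  have hx : (Hi s).1 x = decide (x ≤ s) := rfl
  have hy : (Hi (-s)).1 y = decide (y ≤ -s) := rfl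
  constructor
  · intro h
    change (Hi s).1 x = false ∨ (Hi (-s)).1 y = false
    rw [hx, hy]
    simp only [decide_eq_false_iff_not]
    by_contra hcon
    push Not at hcon
    linarith [hcon.1, hcon.2]
  · intro h
    change (Hi s).1 x = true ∨ (Hi (-s)).1 y = true
    rw [hx, hy]
    simp only [decide_eq_true_eq]
    by_contra hcon
    push Not at hcon
    linarith [hcon.1, hcon.2]⟩

theorem pt_unique (s : ℝ) (p : K) (h1 : p.1.1.1 s = true) (h2 : p.1.2.1 (-s) = true) : p = pt s := by
  obtain ⟨⟨a, b⟩, hp⟩ := p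
  change a.1 s = true at h1
  change b.1 (-s) = true at h2
  have ha : a = Hi s := by
    apply Subtype.ext
    funext x
    change a.1 x = decide (x ≤ s)
    rcases le_or_gt x s with hx | hx
    · rw [true_of_le a hx h1]; simp [hx]
    · rcases (hp x (-s)).1 (by linarith) with h3 | h3
      · change a.1 x = false at h3
        rw [h3]; simp [hx]
      · change b.1 (-s) = false at h3
        rw [h2] at h3; exact absurd h3 (by simp)
  have hb : b = Hi (-s) := by
    apply Subtype.ext
    funext y
    change b.1 y = decide (y ≤ -s)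
    rcases le_or_gt y (-s) with hy | hy
    · rw [true_of_le b hy h2]; simp [hy]
    · rcases (hp s y).1 (by linarith) with h3 | h3
      · change a.1 s = false at h3
        rw [h1] at h3; exact absurd h3 (by simp)
      · change b.1 y = false at h3
        rw [h3]; simp [hy]
  subst ha
  subst hb
  rfl

theorem not_separable_K : ¬ SeparableSpace K := by
  rintro ⟨S, hSc, hS⟩
  have hmem : ∀ s : ℝ, pt s ∈ S := by
    intro s
    have ho : IsOpen {p : K | p.1.1.1 s = true ∧ p.1.2.1 (-s) = true} := by
      have h1 : IsOpen {p : K | p.1.1.1 s = true} :=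
        (isOpen_eval s true).preimage (continuous_fst.comp continuous_subtype_val)
      have h2 : IsOpen {p : K | p.1.2.1 (-s) = true} :=
        (isOpen_eval (-s) true).preimage (continuous_snd.comp continuous_subtype_val)
      exact h1.inter h2
    obtain ⟨q, hq, hqS⟩ := hS.inter_open_nonempty _ ho ⟨pt s, by
      change (Hi s).1 s = true ∧ (Hi (-s)).1 (-s) = true
      have h3 : (Hi s).1 s = decide (s ≤ s) := rfl
      have h4 : (Hi (-s)).1 (-s) = decide (-s ≤ -s) := rfl
      rw [h3, h4]; simp⟩
    rw [pt_unique s q hq.1 hq.2] at hqS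
    exact hqS
  have hinj : Function.Injective pt := by
    intro s t hst
    have h1 : (Hi s) = (Hi t) := congrArg (fun p : K => p.1.1) hst
    have h2 : ∀ x, decide (x ≤ s) = decide (x ≤ t) := fun x => congrFun (congrArg Subtype.val h1) x
    have h3 := h2 s
    have h4 := h2 t
    simp at h3 h4
    exact le_antisymm h3 h4
  have h5 : (range pt).Countable := hSc.mono (by rintro _ ⟨s, rfl⟩; exact hmem s)
  have h6 : Countable ℝ := countable_univ_iff.mp
    (Set.countable_of_injective_of_countable_image (s := univ) hinj.injOn (by rw [image_univ]; exact h5))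
  exact not_countable_iff.mpr (inferInstance : Uncountable ℝ) h6

theorem firstCountable_sum {X : Type u} {Y : Type v} [TopologicalSpace X] [TopologicalSpace Y]
    [FirstCountableTopology X] [FirstCountableTopology Y] : FirstCountableTopology (X ⊕ Y) := by
  refine ⟨fun z => ?_⟩
  rcases z with x | y
  · rw [nhds_inl]
    infer_instance
  · rw [nhds_inr]
    infer_instance

/-- **There is a first countable compact Hausdorff space which is not set-self-Tietze.** -/
theorem result : ∃ (X : Type) (_ : TopologicalSpace X),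
    CompactSpace X ∧ T2Space X ∧ FirstCountableTopology X ∧ ¬ SetSelfTietze X := by
  haveI : CompactSpace K := isCompact_iff_compactSpace.mp isClosed_K.isCompact
  exact ⟨(DA × DA) ⊕ K, inferInstance, inferInstance, inferInstance, firstCountable_sum,
    not_setSelfTietze_sum isClosed_K not_separable_K⟩

end Pool.Agent.Results.MP_65e89e_gt.FirstCountableFails
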